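import Mathlib

namespace Pool.Agent.Results.MP_7bc96b_al.Holds

open Finset

variable {X : Type} [AddCommGroup X] {n : ℕ}

/-- `B_I`: exponent vectors `m ∈ ℕ^n` (viewed in `ℤ^n`) with support in `I` and
`∑ m_i χ_i = 0`. -/
def B (χ : Fin n → X) (I : Finset (Fin n)) : Set (Fin n → ℤ) :=
  {m | (∀ i, 0 ≤ m i) ∧ (∀ i, m i ≠ 0 → i ∈ I) ∧ ∑ i, m i • χ i = 0}

/-- The least `t` such that every group `ℤ B_I` is generated by the `B_J`, `J ⊆ I`, `|J| ≤ t`. -/
noncomputable def tau (χ : Fin n → X) : ℕ :=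
  sInf {t | ∀ I : Finset (Fin n), AddSubgroup.closure (B χ I) =
    AddSubgroup.closure (⋃ J ∈ {J : Finset (Fin n) | J ⊆ I ∧ J.card ≤ t}, B χ J)}

lemma dep [Module.Finite ℤ X] (x : Fin n → X) (K : Finset (Fin n))
    (h : Module.finrank ℤ X < K.card) :
    ∃ c : Fin n → ℤ, (∃ i, c i ≠ 0) ∧ (∀ i, c i ≠ 0 → i ∈ K) ∧ ∑ i, c i • x i = 0 := by
  have : ¬ LinearIndependent ℤ fun k : K => x k := fun hl => by
    have := hl.fintype_card_le_finrank
    rw [Fintype.card_coe] at this
    omega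
  obtain ⟨g, hg, k, hk⟩ := Fintype.not_linearIndependent_iff.1 this
  refine ⟨fun i => if hi : i ∈ K then g ⟨i, hi⟩ else 0, ⟨k, by simpa using hk⟩, ?_, ?_⟩
  · intro i hi
    by_contra hn
    simp [hn] at hi
  · rw [← hg, ← sum_subset (subset_univ K) (fun i _ hi => by simp [hi]), ← sum_coe_sort]
    simp

lemma carath [Module.Finite ℤ X] (χ : Fin n → X) (I : Finset (Fin n)) (v : X) (k : ℕ) :
    ∀ (N : ℤ) (c : Fin n → ℤ), #{i | c i ≠ 0} ≤ k → 0 < N → (∀ i, 0 ≤ c i) →
      (∀ i, c i ≠ 0 → i ∈ I) → N • v = ∑ i, c i • χ i →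
      ∃ (N : ℤ) (c : Fin n → ℤ), #{i | c i ≠ 0} ≤ Module.finrank ℤ X ∧ 0 < N ∧ (∀ i, 0 ≤ c i) ∧
        (∀ i, c i ≠ 0 → i ∈ I) ∧ N • v = ∑ i, c i • χ i := by
  induction k with
  | zero => exact fun N c h1 h2 h3 h4 h5 => ⟨N, c, by omega, h2, h3, h4, h5⟩
  | succ k ih =>
    intro N c h1 h2 h3 h4 h5
    by_cases hd : #{i | c i ≠ 0} ≤ Module.finrank ℤ X
    · exact ⟨N, c, hd, h2, h3, h4, h5⟩
    obtain ⟨e, he1, he2, he3⟩ : ∃ e : Fin n → ℤ, (∃ i, 0 < e i) ∧ (∀ i, e i ≠ 0 → c i ≠ 0) ∧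
        ∑ i, e i • χ i = 0 := by
      obtain ⟨e, ⟨i, hi⟩, he2, he3⟩ := dep χ _ (not_le.1 hd)
      rcases hi.lt_or_gt with h | h
      · refine ⟨-e, ⟨i, by simpa using h⟩, fun j hj => ?_, by simp [he3]⟩
        simpa using he2 j (by simpa using hj)
      · exact ⟨e, ⟨i, h⟩, fun j hj => by simpa using he2 j hj, he3⟩
    obtain ⟨j, hj, hmin⟩ := exists_min_image {i | 0 < e i} (fun i => (c i : ℚ) / e i)
      (by obtain ⟨i, hi⟩ := he1; exact ⟨i, by simpa using hi⟩)
    have hj' : 0 < e j := by simpa using hj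
    have hsup : ∀ i, e j * c i - c j * e i ≠ 0 → c i ≠ 0 := by
      intro i hi h0
      have : e i = 0 := by_contra fun h => he2 i h h0
      simp [h0, this] at hi
    refine ih (e j * N) (fun i => e j * c i - c j * e i) ?_ (by positivity) (fun i => ?_)
      (fun i hi => h4 i (hsup i hi)) ?_
    · have : ({i | e j * c i - c j * e i ≠ 0} : Finset (Fin n)) ⊆ ({i | c i ≠ 0} : Finset _).erase j := by
        intro i hi
        have hi' : e j * c i - c j * e i ≠ 0 := by simpa using hi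
        refine mem_erase.2 ⟨?_, by simpa using hsup i hi'⟩
        rintro rfl
        exact hi' (by ring)
      have h6 := card_le_card this
      rw [card_erase_of_mem (by simpa using he2 j hj'.ne')] at h6
      omega
    · rcases lt_or_ge 0 (e i) with h | h
      · have := hmin i (by simpa using h)
        rw [div_le_div_iff₀ (by exact_mod_cast hj') (by exact_mod_cast h)] at this
        have : c j * e i ≤ c i * e j := by exact_mod_cast this
        linarith
      · nlinarith [h3 i, h3 j]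
    · simp only [sub_smul, mul_smul, sum_sub_distrib, ← smul_sum, he3, h5, smul_zero, sub_zero]

lemma small [Module.Finite ℤ X] (χ : Fin n → X) (I : Finset (Fin n)) (r : ℕ) {l : Fin n → ℤ}
    (hl : l ∈ B χ I) (T : Finset (Fin n)) (hT : ∀ i ∈ T, l i ≠ 0) (hc : T.card ≤ r + 1)
    (ρ : Fin n → ℤ) (h1 : ∀ i, ρ i ≠ 0 → i ∈ T) (h2 : ∑ i, ρ i • χ i = 0) :
    ρ ∈ AddSubgroup.closure (⋃ J ∈ {J : Finset (Fin n) | J ⊆ I ∧
      J.card ≤ 1 + Module.finrank ℤ X + r}, B χ J) := by
  obtain ⟨l0, l1, l2⟩ := hl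
  have hind : ∀ N : ℤ, ∑ i, (if i ∈ T then N else 0) • χ i = N • ∑ i ∈ T, χ i := by
    intro N
    simp only [ite_smul, zero_smul, smul_sum]
    rw [sum_ite_mem, univ_inter]
  obtain ⟨N, c, c1, c2, c3, c4, c5⟩ := carath χ I (-∑ i ∈ T, χ i) _ 1
    (fun i => l i - if i ∈ T then 1 else 0) le_rfl one_pos
    (fun i => by
      split_ifs with h
      · have := hT i h; have := l0 i; omega
      · simpa using l0 i)
    (fun i hi => by
      by_cases h : i ∈ T
      · exact l1 i (hT i h)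
      · exact l1 i (by simpa [h] using hi))
    (by simp only [sub_smul, sum_sub_distrib, l2, hind]; simp)
  have hJ : T ∪ univ.filter (fun i => c i ≠ 0) ∈ {J : Finset (Fin n) | J ⊆ I ∧
      J.card ≤ 1 + Module.finrank ℤ X + r} := by
    refine ⟨union_subset (fun i hi => l1 i (hT i hi)) (fun i hi => c4 i (by simpa using hi)), ?_⟩
    have := card_union_le T {i | c i ≠ 0}
    omega
  have hm : ∀ (σ : Fin n → ℤ) (k : ℤ), (∀ i, σ i ≠ 0 → i ∈ T) → ∑ i, σ i • χ i = 0 →
      (∀ i, |σ i| ≤ k) → 0 ≤ k → (fun i => σ i + k * (c i + if i ∈ T then N else 0)) ∈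
      AddSubgroup.closure (⋃ J ∈ {J : Finset (Fin n) | J ⊆ I ∧
        J.card ≤ 1 + Module.finrank ℤ X + r}, B χ J) := by
    intro σ k s1 s2 s3 hk
    refine AddSubgroup.subset_closure (Set.mem_biUnion hJ ⟨fun i => ?_, fun i hi => ?_, ?_⟩)
    · have := c3 i
      have := abs_le.1 (s3 i)
      beta_reduce
      split_ifs with h
      · nlinarith
      · have : σ i = 0 := by_contra fun h' => h (s1 i h')
        rw [this]; positivity
    · by_contra hn
      simp only [mem_union, mem_filter, mem_univ, true_and, not_or, not_not] at hn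
      have : σ i = 0 := by_contra fun h' => hn.1 (s1 i h')
      simp [hn.1, hn.2, this] at hi
    · simp only [add_smul, mul_smul, sum_add_distrib, ← smul_sum, s2, hind, ← c5]
      simp
  have hk : ∀ i, |ρ i| ≤ ∑ j, |ρ j| := fun i =>
    single_le_sum (f := fun j => |ρ j|) (fun _ _ => abs_nonneg _) (mem_univ i)
  have hk0 : 0 ≤ ∑ j, |ρ j| := sum_nonneg fun _ _ => abs_nonneg _
  have := AddSubgroup.sub_mem _ (hm ρ _ h1 h2 hk hk0)
    (hm 0 _ (by simp) (by simp) (fun _ => by simpa using hk0) hk0)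
  convert this using 1
  ext i
  simp

lemma prim {Y : Type} [AddCommGroup Y] [IsAddTorsionFree Y] (x : Fin n → Y) (K : Finset (Fin n))
    {p : ℕ} (hp : p.Prime) (k : ℕ) : ∀ c : Fin n → ℤ, ∑ i, (c i).natAbs ≤ k → (∃ i, c i ≠ 0) →
      (∀ i, c i ≠ 0 → i ∈ K) → ∑ i, c i • x i = 0 →
      ∃ c : Fin n → ℤ, (∃ i, ¬ (p : ℤ) ∣ c i) ∧ (∀ i, c i ≠ 0 → i ∈ K) ∧ ∑ i, c i • x i = 0 := by
  induction k with
  | zero =>
    rintro c h1 ⟨i, hi⟩ - -
    have := single_le_sum (f := fun j => (c j).natAbs) (fun _ _ => Nat.zero_le _) (mem_univ i)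
    omega
  | succ k ih =>
    rintro c h1 ⟨i, hi⟩ h3 h4
    by_cases h : ∃ i, ¬ (p : ℤ) ∣ c i
    · exact ⟨c, h, h3, h4⟩
    push Not at h
    choose e he using h
    have hs : ∑ i, (c i).natAbs = p * ∑ i, (e i).natAbs := by
      simp [he, mul_sum, Int.natAbs_mul]
    have hi' : e i ≠ 0 := fun h0 => hi (by simp [he, h0])
    have := single_le_sum (f := fun j => (e j).natAbs) (fun _ _ => Nat.zero_le _) (mem_univ i)
    have hpos : 0 < (e i).natAbs := Int.natAbs_pos.2 hi'
    refine ih e (by nlinarith [hp.two_le]) ⟨i, hi'⟩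
      (fun j hj => h3 j (by simp [he, hj, hp.ne_zero])) ?_
    have : p • ∑ i, e i • x i = 0 := by
      rw [← h4, smul_sum]
      simp [he, mul_smul]
    exact (nsmul_eq_zero_iff.1 this).resolve_right hp.ne_zero

lemma loc [AddGroup.FG X] (χ : Fin n → X) (I : Finset (Fin n)) {p : ℕ} (hp : p.Prime) (k : ℕ) :
    ∀ (K : Finset (Fin n)) (a : ℤ), K.card ≤ k → K ⊆ I → ¬ (p : ℤ) ∣ a →
      (∀ i ∈ I, ∃ c : Fin n → ℤ, (∀ j, c j ≠ 0 → j ∈ K) ∧ a • χ i = ∑ j, c j • χ j) →
      ∃ (K : Finset (Fin n)) (a : ℤ), K.card ≤ AddGroup.rank X ∧ K ⊆ I ∧ ¬ (p : ℤ) ∣ a ∧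
      (∀ i ∈ I, ∃ c : Fin n → ℤ, (∀ j, c j ≠ 0 → j ∈ K) ∧ a • χ i = ∑ j, c j • χ j) := by
  induction k with
  | zero => exact fun K a h1 h2 h3 h4 => ⟨K, a, by omega, h2, h3, h4⟩
  | succ k ih =>
    intro K a h1 h2 h3 h4
    by_cases hd : K.card ≤ AddGroup.rank X
    · exact ⟨K, a, hd, h2, h3, h4⟩
    obtain ⟨S, hS, hS'⟩ := AddGroup.rank_spec X
    have hsurj : Function.Surjective (Fintype.linearCombination ℤ fun s : S => (s : X)) := by
      rw [← LinearMap.range_eq_top, Fintype.range_linearCombination, Subtype.range_coe_subtype,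
        ← Submodule.toAddSubgroup_inj, Submodule.span_int_eq_addSubgroupClosure]
      simpa using hS'
    choose x hx using fun i => hsurj (χ i)
    obtain ⟨c, c1, c2, c3⟩ := dep x K (by simp; omega)
    obtain ⟨e, ⟨j, hj⟩, e2, e3⟩ := prim x K hp _ c le_rfl c1 c2 c3
    have e4 : ∑ i, e i • χ i = 0 := by
      have := congrArg (Fintype.linearCombination ℤ fun s : S => (s : X)) e3
      simpa only [map_sum, map_smul, hx, map_zero] using this
    have hjK : j ∈ K := e2 j fun h0 => hj (by simp [h0])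
    refine ih (K.erase j) (e j * a) (by rw [card_erase_of_mem hjK]; omega)
      ((erase_subset _ _).trans h2) ?_ fun i hi => ?_
    · intro h
      rcases (Nat.prime_iff_prime_int.1 hp).dvd_or_dvd h with h | h
      exacts [hj h, h3 h]
    · obtain ⟨d, d1, d2⟩ := h4 i hi
      refine ⟨fun m => e j * d m - d j * e m, fun m hm => mem_erase.2 ⟨?_, ?_⟩, ?_⟩
      · rintro rfl
        exact hm (by ring)
      · by_contra hn
        have a1 : d m = 0 := by_contra fun h => hn (d1 m h)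
        have a2 : e m = 0 := by_contra fun h => hn (e2 m h)
        simp [a1, a2] at hm
      · simp only [sub_smul, mul_smul, sum_sub_distrib, ← smul_sum, e4, d2, smul_zero, sub_zero]

theorem result (X : Type) [AddCommGroup X] [AddGroup.FG X] (n : ℕ) (χ : Fin n → X) :
    tau χ ≤ 1 + Module.finrank ℤ X + AddGroup.rank X := by
  have : Module.Finite ℤ X := Module.Finite.iff_addGroup_fg.2 inferInstance
  refine Nat.sInf_le fun I => le_antisymm ((AddSubgroup.closure_le _).2 fun l hl => ?_)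
    (AddSubgroup.closure_mono ?_)
  · obtain ⟨M, hM⟩ : ∃ M, M = AddSubgroup.closure (⋃ J ∈ {J : Finset (Fin n) | J ⊆ I ∧
      J.card ≤ 1 + Module.finrank ℤ X + AddGroup.rank X}, B χ J) := ⟨_, rfl⟩
    have hs := small χ I (AddGroup.rank X) hl
    rw [← hM] at hs ⊢
    by_contra hn
    have h1 : addOrderOf (l : (Fin n → ℤ) ⧸ M) ≠ 1 := by
      rwa [Ne, AddMonoid.addOrderOf_eq_one_iff, QuotientAddGroup.eq_zero_iff]
    obtain ⟨p, hp, hpd⟩ := Nat.exists_prime_and_dvd h1
    obtain ⟨K, a, k1, k2, k3, k4⟩ := loc χ {i | l i ≠ 0} hp _ {i | l i ≠ 0} 1 le_rfl subset_rfl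
      (by have := hp.one_lt; intro h; have := Int.le_of_dvd one_pos h; omega)
      (fun i hi => ⟨Pi.single i 1, fun j hj => by
        by_cases h : j = i
        · exact h ▸ hi
        · simp [h] at hj, by simp [Pi.single_apply]⟩)
    have k5 : ∀ i, ∃ c : Fin n → ℤ, (∀ j, c j ≠ 0 → j ∈ K) ∧
        (l i ≠ 0 → a • χ i = ∑ j, c j • χ j) := by
      intro i
      by_cases h : l i = 0
      · exact ⟨0, by simp, by simp [h]⟩
      · obtain ⟨c, c1, c2⟩ := k4 i (by simpa using h)
        exact ⟨c, c1, fun _ => c2⟩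
    choose c c1 c2 using k5
    have hK : ∀ i ∈ K, l i ≠ 0 := fun i hi => by simpa using k2 hi
    have m1 : ∀ i, l i • (a • Pi.single i 1 - c i : Fin n → ℤ) ∈ M := by
      intro i
      by_cases h : l i = 0
      · simp [h]
      refine M.zsmul_mem (hs (insert i K) (fun j hj => ?_)
        ((card_insert_le _ _).trans (by omega)) _ (fun j hj => ?_) ?_) _
      · rcases mem_insert.1 hj with rfl | hj
        exacts [h, hK j hj]
      · by_cases hji : j = i
        · simp [hji]
        · exact mem_insert_of_mem (c1 i j (by simpa [hji] using hj))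
      · simp [sub_smul, ← c2 i h, Pi.single_apply]
    have m2 : ∑ i, l i • c i ∈ M := by
      refine hs K hK (by omega) _ (fun j hj => ?_) ?_
      · by_contra hn'
        refine hj ?_
        rw [Finset.sum_apply]
        refine sum_eq_zero fun i _ => ?_
        have : c i j = 0 := by_contra fun h => hn' (c1 i j h)
        simp [this]
      · have : ∀ i, l i • ∑ j, c i j • χ j = a • l i • χ i := by
          intro i
          by_cases h : l i = 0
          · simp [h]
          · rw [← c2 i h, smul_comm]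
        simp only [Finset.sum_apply, Pi.smul_apply, smul_eq_mul, sum_smul, mul_smul]
        rw [sum_comm]
        simp only [← smul_sum, this, hl.2.2, smul_zero]
    have m3 : a • l ∈ M := by
      convert M.add_mem (M.sum_mem fun i (_ : i ∈ univ) => m1 i) m2 using 1
      ext j
      simp [Finset.sum_apply, mul_sub, Pi.single_apply, mul_comm]
    have : a • (l : (Fin n → ℤ) ⧸ M) = 0 := by
      rw [← QuotientAddGroup.mk_zsmul, QuotientAddGroup.eq_zero_iff]; exact m3
    exact k3 ((Int.natCast_dvd_natCast.2 hpd).trans (addOrderOf_dvd_iff_zsmul_eq_zero.2 this))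
  · intro m hm
    simp only [Set.mem_iUnion] at hm
    obtain ⟨J, hJ, m1, m2, m3⟩ := hm
    exact ⟨m1, fun i hi => hJ.1 (m2 i hi), m3⟩

end Pool.Agent.Results.MP_7bc96b_al.Holds
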